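import Pool.Agent.Zk45.RS.Stm
import Pool.Agent.H165R3.BPE

/-! Recurrence: a set whose points return rarely during some long windows is null. -/

set_option autoImplicit false

open MeasureTheory Filter Topology Set

namespace Pool.Agent.Zk78.RS

/-- a bound of the limit of the averages from the windows -/
lemma lim_le (S : Set ℕ) (L c : ℝ) (hc : 0 < c)
    (hL : Tendsto (fun n : ℕ => (n : ℝ)⁻¹ * ∑ k ∈ Finset.range n, S.indicator (fun _ => (1 : ℝ)) k)
      atTop (𝓝 L))
    (h : ∀ η : ℝ, 0 < η → ∀ K : ℕ, ∃ n1 n2 : ℕ, K ≤ n1 ∧ (1 + c) * n1 ≤ n2 ∧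
      (({m : ℕ | n1 ≤ m ∧ m < n2 ∧ m ∈ S}).ncard : ℝ) ≤ η * n2) : L ≤ 0 := by
  classical
  have hsum : ∀ n : ℕ, ∑ k ∈ Finset.range n, S.indicator (fun _ => (1 : ℝ)) k =
      (((Finset.range n).filter (· ∈ S)).card : ℝ) := by
    intro n
    rw [Finset.card_filter]
    push_cast
    refine Finset.sum_congr rfl fun k _ => ?_
    by_cases hk : k ∈ S <;> simp [hk]
  have key : ∀ ε : ℝ, 0 < ε → L * (c / (1 + c)) ≤ 3 * ε := by
    intro ε hε
    rw [Metric.tendsto_atTop] at hL
    obtain ⟨N, hN⟩ := hL ε hε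
    obtain ⟨n1, n2, hK, hn, hw⟩ := h ε hε (N + 1)
    have hn1 : (1 : ℝ) ≤ n1 := by
      have : 1 ≤ n1 := by omega
      exact_mod_cast this
    have hn12 : (n1 : ℝ) ≤ n2 := by nlinarith
    have hn12' : n1 ≤ n2 := by exact_mod_cast hn12
    have h1 := hN n1 (by omega)
    have h2 := hN n2 (by omega)
    rw [Real.dist_eq, abs_lt, hsum] at h1 h2
    have hp1 : (0 : ℝ) < n1 := by linarith
    have hp2 : (0 : ℝ) < n2 := by linarith
    have hcard : (((Finset.range n2).filter (· ∈ S)).card : ℝ) ≤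
        (((Finset.range n1).filter (· ∈ S)).card : ℝ) +
          (({m : ℕ | n1 ≤ m ∧ m < n2 ∧ m ∈ S}).ncard : ℝ) := by
      have he : {m : ℕ | n1 ≤ m ∧ m < n2 ∧ m ∈ S} =
          (((Finset.range n2).filter (fun m => n1 ≤ m ∧ m ∈ S) : Finset ℕ) : Set ℕ) := by
        ext m
        simp only [Set.mem_ofPred_eq, Finset.coe_filter, Finset.mem_range]
        tauto
      rw [he, Set.ncard_coe_finset]
      have hsub : (Finset.range n2).filter (· ∈ S) ⊆ (Finset.range n1).filter (· ∈ S) ∪
          (Finset.range n2).filter (fun m => n1 ≤ m ∧ m ∈ S) := by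
        intro m hm
        simp only [Finset.mem_filter, Finset.mem_range, Finset.mem_union] at hm ⊢
        by_cases hmm : m < n1
        · left; exact ⟨hmm, hm.2⟩
        · right; exact ⟨hm.1, by omega, hm.2⟩
      exact_mod_cast (Finset.card_le_card hsub).trans (Finset.card_union_le _ _)
    have h3 : (((Finset.range n1).filter (· ∈ S)).card : ℝ) ≤ (L + ε) * n1 := by
      have := h1.2
      rw [sub_lt_iff_lt_add, inv_mul_lt_iff₀ hp1] at this
      nlinarith
    have h4 : (L - ε) * n2 ≤ (((Finset.range n2).filter (· ∈ S)).card : ℝ) := by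
      have := h2.1
      rw [lt_sub_iff_add_lt, lt_inv_mul_iff₀ hp2] at this
      nlinarith
    have h5 : L * (n2 - n1) ≤ 3 * ε * n2 := by nlinarith
    by_cases hL0 : L ≤ 0
    · have : L * (c / (1 + c)) ≤ 0 := mul_nonpos_of_nonpos_of_nonneg hL0 (by positivity)
      linarith
    push Not at hL0
    have h6 : c / (1 + c) * n2 ≤ n2 - n1 := by
      rw [div_mul_eq_mul_div, div_le_iff₀ (by linarith)]
      nlinarith
    have h7 : L * (c / (1 + c)) * n2 ≤ 3 * ε * n2 := by nlinarith
    exact le_of_mul_le_mul_right h7 hp2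
  by_contra hcon
  push Not at hcon
  have h8 : 0 < L * (c / (1 + c)) := by positivity
  have := key (L * (c / (1 + c)) / 6) (by positivity)
  linarith

theorem rec : Pool.Agent.Zk45.RS.S_REC := by
  intro X _ μ _ f hf B hB c hc h
  classical
  set b : X → ℝ := B.indicator (fun _ => (1 : ℝ)) with hbdef
  have hbm : Measurable b := measurable_const.indicator hB
  have hb0 : ∀ x, 0 ≤ b x := fun x => Set.indicator_nonneg (fun _ _ => zero_le_one) x
  have hbb : ∀ x, |b x| ≤ 1 := by
    intro x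
    by_cases hx : x ∈ B <;> simp [hbdef, hx]
  have hbk := Pool.Agent.H165R3.BPE.birkhoff hf b hbm 1 hbb
  have hle := MeasurableSpace.invariants_le f
  have hint : Integrable b μ := by
    refine Integrable.mono' (integrable_const (1 : ℝ)) hbm.aestronglyMeasurable ?_
    filter_upwards with x using hbb x
  set φ : X → ℝ := μ[b | MeasurableSpace.invariants f] with hφ
  have hz : ∀ᵐ x ∂μ, x ∈ B → φ x = 0 := by
    filter_upwards [hbk] with x hx hxB
    refine le_antisymm ?_ ?_
    · refine lim_le {m : ℕ | f^[m] x ∈ B} (φ x) c hc ?_ (h x hxB)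
      refine hx.congr fun n => ?_
      congr 1
    · refine ge_of_tendsto' hx fun n => ?_
      refine mul_nonneg (by positivity) (Finset.sum_nonneg fun k _ => hb0 _)
  have hZ : MeasurableSet[MeasurableSpace.invariants f] (φ ⁻¹' {0}) := by
    have hm : Measurable[MeasurableSpace.invariants f] φ := stronglyMeasurable_condExp.measurable
    exact hm (measurableSet_singleton 0)
  have h1 : ∫ x in φ ⁻¹' {0}, φ x ∂μ = ∫ x in φ ⁻¹' {0}, b x ∂μ := setIntegral_condExp hle hint hZ
  have h2 : ∫ x in φ ⁻¹' {0}, φ x ∂μ = 0 :=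
    setIntegral_eq_zero_of_forall_eq_zero fun x hx => hx
  have h3 : ∫ x in φ ⁻¹' {0}, b x ∂μ = μ.real (B ∩ φ ⁻¹' {0}) := by
    rw [hbdef, integral_indicator hB]
    simp only [integral_const, measureReal_restrict_apply MeasurableSet.univ, univ_inter,
      smul_eq_mul, mul_one]
    rw [measureReal_restrict_apply hB]
  have h4 : μ.real (B ∩ φ ⁻¹' {0}) = 0 := by rw [← h3, ← h1, h2]
  have h5 : μ (B ∩ φ ⁻¹' {0}) = 0 := by
    rw [Measure.real, ENNReal.toReal_eq_zero_iff] at h4
    rcases h4 with h4 | h4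
    · exact h4
    · exact absurd h4 (measure_ne_top _ _)
  have h6 : (B ∩ φ ⁻¹' {0} : Set X) =ᵐ[μ] B := by
    filter_upwards [hz] with x hx
    refine propext ⟨fun hxx => hxx.1, fun hxx => ⟨hxx, hx hxx⟩⟩
  rw [← measure_congr h6, h5]

end Pool.Agent.Zk78.RS
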